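import Pool.Agent.Y63.NV.Stm4
import Pool.Agent.Y564.NV.Clif
import Pool.Agent.Y930.NV.Cen

/-!
# Characters of defect zero with given central character over a normal subgroup of index `p` (CLIFL)
-/

open scoped BigOperators Classical
open Pool.Agent.Helper884.IC

set_option autoImplicit false
set_option linter.unusedSectionVars false

noncomputable section

namespace Pool.Agent.Y809.NV

open Pool.Agent.Y63.AWC hiding ind
open Pool.Agent.Y63.NV (centralValue InZ redC)
open Pool.Agent.Y564.NV (st_cases fac_card dz_con iv_iff)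
open Pool.Agent.Y930.NV

variable {X : Type} [Group X] [Fintype X] (M : Subgroup X) [hM : M.Normal]
  {p : ℕ} [hp : Fact p.Prime]

/-- the sums over `M` of an invariant function and of the conjugates of `theta` agree -/
theorem sum_cj {n : X → ℂ} (hn : ∀ g x : X, n (g * x * g⁻¹) = n x) (theta : M → ℂ) (x : X) :
    ∑ m : M, n m * cj M x theta m = ∑ m : M, n m * theta m := by
  refine Fintype.sum_equiv (MulAut.conjNormal x).toEquiv _ _ fun m => ?_
  have h1 : n ((MulAut.conjNormal x m : M) : X) = n m := by
    rw [MulAut.conjNormal_apply]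
    exact hn x m
  change n m * theta (MulAut.conjNormal x m) =
    n ((MulAut.conjNormal x m : M) : X) * theta (MulAut.conjNormal x m)
  rw [h1]

/-- the central character and the constituents of the restriction -/
theorem om_eq {chi : X → ℂ} {theta : M → ℂ} (hc : IsIrrChar chi) (h : IsIrrChar theta)
    (h1 : mult M chi theta ≠ 0) {n : X → ℂ} (hn : ∀ g x : X, n (g * x * g⁻¹) = n x)
    (hs : ∀ x, x ∉ M → n x = 0) : om chi n = om theta (fun m : M => n m) := by
  have hres := res_eq M hc
  set A : ℂ := ∑ m : M, n m * theta m with hA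
  set S : ℂ := ∑ t ∈ Irr M, (mult M chi t : ℂ) with hS
  have h2 : ∀ t ∈ Irr M, (mult M chi t : ℂ) * ∑ m : M, n m * t m = (mult M chi t : ℂ) * A := by
    intro t ht
    by_cases hm : mult M chi t = 0
    · rw [hm, Nat.cast_zero, zero_mul, zero_mul]
    · have h3 := mem_Orb_of_mult M hc h (mem_Irr.mp ht) h1 hm
      obtain ⟨x, -, rfl⟩ := Finset.mem_image.mp h3
      rw [sum_cj M hn]
  have h2' : ∀ t ∈ Irr M, (mult M chi t : ℂ) * t 1 = (mult M chi t : ℂ) * theta 1 := by
    intro t ht
    by_cases hm : mult M chi t = 0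
    · rw [hm, Nat.cast_zero, zero_mul, zero_mul]
    · have h3 := mem_Orb_of_mult M hc h (mem_Irr.mp ht) h1 hm
      obtain ⟨x, -, rfl⟩ := Finset.mem_image.mp h3
      have : cj M x theta 1 = theta 1 := by simp [cj]
      rw [this]
  have h4 : ∑ g : X, n g * chi g = S * A := by
    rw [sum_M M (fun g => n g * chi g) (fun g hg => by rw [hs g hg, zero_mul]), hS,
      Finset.sum_mul, ← Finset.sum_congr rfl h2]
    have h5 : ∀ m : M, n m * chi m = ∑ t ∈ Irr M, (mult M chi t : ℂ) * (n m * t m) := by
      intro m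
      have h6 := congrFun hres m
      rw [Finset.sum_apply] at h6
      have h7 : chi (m : X) = res M chi m := rfl
      rw [h7, h6, Finset.mul_sum]
      refine Finset.sum_congr rfl fun t _ => ?_
      rw [Pi.smul_apply, smul_eq_mul]
      ring
    rw [Finset.sum_congr rfl fun m _ => h5 m, Finset.sum_comm]
    refine Finset.sum_congr rfl fun t _ => ?_
    rw [Finset.mul_sum]
  have h8 : chi 1 = S * theta 1 := by
    have h6 := congrFun hres 1
    rw [Finset.sum_apply] at h6
    have h7 : chi 1 = res M chi 1 := by simp [res]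
    rw [h7, h6, hS, Finset.sum_mul, ← Finset.sum_congr rfl h2']
    rfl
  have hS0 : S ≠ 0 := by
    intro h9
    rw [h9, zero_mul] at h8
    exact one_ne hc h8
  unfold om
  rw [h4, h8, mul_div_mul_left _ _ hS0]

/-- the reduced central characters agree for functions with integer values -/
theorem R_eq {F : Type} [Field F] (red : integralClosure ℤ ℂ →+* F) {chi : X → ℂ}
    {theta : M → ℂ} (hc : IsIrrChar chi) (h : IsIrrChar theta) (h1 : mult M chi theta ≠ 0)
    {n : X → ℤ} (hn : Cf n) (hs : ∀ x, x ∉ M → n x = 0) :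
    R red chi n = ∑ D : ConjClasses M, ((n (D.out : M) : ℤ) : F) * R red theta (ind ℤ D) := by
  have h2 : om chi (fun g => ((n g : ℤ) : ℂ)) = om theta (fun m : M => ((n (m : X) : ℤ) : ℂ)) :=
    om_eq M hc h h1 (n := fun g => ((n g : ℤ) : ℂ)) (fun g x => congrArg (Int.cast : ℤ → ℂ) (hn g x))
      fun x hx => by rw [hs x hx, Int.cast_zero]
  have h3 : R red chi n = R red theta (fun m : M => n (m : X)) := congrArg (redC red) h2
  have h4 : Cf (fun m : M => n (m : X)) := fun g x => hn (g : X) (x : X)
  rw [h3, R_expand red h h4]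
  exact Finset.sum_congr (by ext D; simp only [Finset.mem_univ]) fun _ _ => rfl

/-- the reduced central characters agree -/
theorem cv_eq {F : Type} [Field F] (red : integralClosure ℤ ℂ →+* F) {chi : X → ℂ}
    {theta : M → ℂ} (hc : IsIrrChar chi) (h : IsIrrChar theta) (h1 : mult M chi theta ≠ 0)
    {z : X → F} (hz : InZ M z) :
    centralValue red chi z = centralValue red theta (fun x : M => z x) := by
  have hX : ∀ C : ConjClasses X, z C.out * R red chi (ind ℤ C) =
      z C.out * ∑ D : ConjClasses M, ((ind ℤ C (D.out : M) : ℤ) : F) * R red theta (ind ℤ D) := by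
    intro C
    by_cases hC : C.out ∈ M
    · congr 1
      have hs : ∀ x, x ∉ M → ind ℤ C x = 0 := by
        intro x hx
        unfold ind
        rw [if_neg]
        intro h2
        apply hx
        rw [← mk_out C, ConjClasses.mk_eq_mk_iff_isConj, isConj_comm, isConj_iff] at h2
        obtain ⟨c, hc⟩ := h2
        rw [← hc]
        exact hM.conj_mem _ hC c
      exact R_eq M red hc h h1 (Cf_ind ℤ C) hs
    · rw [hz.supp _ hC, zero_mul, zero_mul]
  rw [centralValue_eq red hc, centralValue_eq red h, Finset.sum_congr rfl fun C _ => hX C]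
  simp_rw [Finset.mul_sum]
  rw [Finset.sum_comm]
  refine Finset.sum_congr (by ext D; simp only [Finset.mem_univ]) fun D _ => ?_
  have hzc : Cf z := hz.conj
  have h4 := Cf_expand hzc ((D.out : M) : X)
  show _ = z ((D.out : M) : X) * _
  rw [h4, Finset.sum_mul]
  refine Finset.sum_congr rfl fun C _ => ?_
  have e : ((ind ℤ C ((D.out : M) : X) : ℤ) : F) = ind F C ((D.out : M) : X) := by
    unfold ind
    split_ifs <;> simp
  rw [e]
  ring

/-- **Count of the characters of defect zero with a label.** -/
theorem count_dzL (hr : Nat.card X = p * Nat.card M) (P : (X → ℂ) → Prop) (Q : (M → ℂ) → Prop)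
    (hPQ : ∀ (chi : X → ℂ) (theta : M → ℂ), IsIrrChar chi → IsIrrChar theta →
      mult M chi theta ≠ 0 → (P chi ↔ Q theta)) :
    p * ((Irr X).filter fun chi => DZ p chi ∧ P chi).card =
      ((Irr M).filter fun theta => (DZ p theta ∧ Q theta) ∧
        Nat.card (St M theta) = Nat.card M).card := by
  set S := (Irr X).filter fun chi => DZ p chi ∧ P chi with hS
  set T := (Irr M).filter fun theta => (DZ p theta ∧ Q theta) ∧
    Nat.card (St M theta) = Nat.card M with hT
  have h := Finset.sum_card_bipartiteAbove_eq_sum_card_bipartiteBelow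
    (s := S) (t := T) (fun chi theta => mult M chi theta ≠ 0)
  have h1 : ∀ chi ∈ S, (Finset.bipartiteAbove (fun chi theta => mult M chi theta ≠ 0) T chi).card
      = p := by
    intro chi hchi
    obtain ⟨hc, hz, hP⟩ := Finset.mem_filter.mp hchi
    have hc := mem_Irr.mp hc
    obtain ⟨theta, ht, hm⟩ := mult_exists M hc
    have h2 := dz_con M hr hc hz ht hm
    rw [← h2.2.2, ← support_eq M hc ht hm]
    congr 1
    ext t
    simp only [Finset.bipartiteAbove, Finset.mem_filter, hT]
    constructor
    · rintro ⟨⟨h3, -⟩, h4⟩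
      exact ⟨h3, h4⟩
    · rintro ⟨h3, h4⟩
      have h5 := dz_con M hr hc hz (mem_Irr.mp h3) h4
      exact ⟨⟨h3, ⟨h5.1, (hPQ chi t hc (mem_Irr.mp h3) h4).1 hP⟩, h5.2.1⟩, h4⟩
  have h2 : ∀ theta ∈ T, (Finset.bipartiteBelow (fun chi theta => mult M chi theta ≠ 0) S theta).card
      = 1 := by
    intro theta htheta
    obtain ⟨ht, ⟨hz, hQ⟩, hst⟩ := Finset.mem_filter.mp htheta
    have ht := mem_Irr.mp ht
    obtain ⟨h3, h4⟩ := unique_over M ht hst
    rw [← h3]
    congr 1
    ext chi
    simp only [Finset.bipartiteBelow, Finset.mem_filter, hS]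
    constructor
    · rintro ⟨⟨h5, -⟩, h6⟩
      exact ⟨h5, h6⟩
    · rintro ⟨h5, h6⟩
      have h5' := mem_Irr.mp h5
      refine ⟨⟨h5, ?_, (hPQ chi theta h5' ht h6).2 hQ⟩, h6⟩
      obtain ⟨n, hn0, hn⟩ := deg_nat h5'
      obtain ⟨d, hd, hfac⟩ := hz
      have hd0 : d ≠ 0 := by
        rintro rfl
        exact one_ne ht (by simpa using hd)
      have hdeg := deg_eq M h5' ht h6 hn hd
      have hm1 : mult M chi theta = 1 := le_antisymm (h4 chi h5) (Nat.pos_of_ne_zero h6)
      have hO : (Orb M theta).card = p := by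
        have := card_Orb_mul M theta
        rw [hst, hr] at this
        exact Nat.eq_of_mul_eq_mul_right Nat.card_pos this
      refine ⟨n, hn, ?_⟩
      rw [fac_card M hr, hdeg, hm1, mul_one, hO, Nat.factorization_mul hp.out.ne_zero hd0,
        Finsupp.add_apply, hp.out.factorization, Finsupp.single_eq_same, hfac, add_comm]
  rw [Finset.sum_congr rfl h1, Finset.sum_congr rfl h2, Finset.sum_const, Finset.sum_const,
    smul_eq_mul, smul_eq_mul, mul_one] at h
  rw [← h, mul_comm]

/-- weights for the trivial subgroup -/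
theorem nw_bot {J F : Type} [Group J] [Fintype J] [Field F] (p : ℕ)
    (red : integralClosure ℤ ℂ →+* F) (f : J → F) (c : F) :
    Pool.Agent.Y63.NV.Nw p red (⊥ : Subgroup J) f c =
      ((Irr J).filter fun chi => DZ p chi ∧ centralValue red chi f = c).card := by
  unfold Pool.Agent.Y63.NV.Nw
  rw [← Fintype.card_coe, ← Nat.card_eq_fintype_card]
  refine Nat.card_congr (Equiv.subtypeEquivRight fun theta => ?_)
  rw [Finset.mem_filter, mem_Irr]
  have h0 : (Nat.card (⊥ : Subgroup J)).factorization p = 0 := by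
    rw [Subgroup.card_bot, Nat.factorization_one, Finsupp.coe_zero, Pi.zero_apply]
  constructor
  · rintro ⟨h3, h4⟩
    obtain ⟨n, hn, hn2⟩ := h3.defectZero
    rw [h0, add_zero] at hn2
    exact ⟨h3.irr, ⟨n, hn, hn2⟩, h4⟩
  · rintro ⟨h3, ⟨n, hn, hn2⟩, h4⟩
    refine ⟨⟨h3, fun q hq x => ?_, n, hn, ?_⟩, h4⟩
    · rw [Subgroup.mem_bot.1 hq, one_mul]
    · rw [h0, add_zero, hn2]

end Pool.Agent.Y809.NV

open Pool.Agent.Y63.AWC Pool.Agent.Y564.NV Pool.Agent.Y809.NV in
/-- defect zero characters with given central character over a normal subgroup of index `p` -/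
theorem Pool.Agent.Y809.NV.clifL : Pool.Agent.Y63.NV.S_CLIFL := by
  intro p hp F _ _ red Y _ _ X hX z c hq hz
  cases nonempty_fintype Y
  have hr : Nat.card Y = p * Nat.card X := by
    rw [Subgroup.card_eq_card_quotient_mul_card_subgroup X, hq]
  have h1 := count_dzL X hr (fun chi => Pool.Agent.Y63.NV.centralValue red chi z = c)
    (fun theta => Pool.Agent.Y63.NV.centralValue red theta (fun x : X => z x) = c)
    (fun chi theta hc ht hm => by rw [cv_eq X red hc ht hm hz])
  rw [nw_bot, nw_bot, h1]
  have h2 : Pool.Agent.Y63.NV.numInvDzL p red X z c =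
      ((Irr X).filter fun theta => (DZ p theta ∧
        Pool.Agent.Y63.NV.centralValue red theta (fun x : X => z x) = c) ∧
        ¬ Nat.card (St X theta) = Nat.card X).card := by
    unfold Pool.Agent.Y63.NV.numInvDzL
    rw [← Fintype.card_coe, ← Nat.card_eq_fintype_card]
    refine Nat.card_congr (Equiv.subtypeEquivRight fun theta => ?_)
    rw [Finset.mem_filter, mem_Irr]
    constructor
    · rintro ⟨⟨h3, h4, h5⟩, hc⟩
      refine ⟨h3, ⟨h4, hc⟩, ?_⟩
      have h6 := (iv_iff X theta).1 h5
      rw [h6, hr]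
      intro h7
      have h8 := hp.out.two_le
      have h9 : 0 < Nat.card X := Nat.card_pos
      nlinarith
    · rintro ⟨h3, ⟨h4, hc⟩, h5⟩
      refine ⟨⟨h3, h4, ?_⟩, hc⟩
      apply (iv_iff X theta).2
      rcases st_cases X hr h3 with h6 | h6
      · exact absurd h6.2.2 h5
      · exact h6.2.2
  rw [h2, ← Finset.filter_filter, ← Finset.filter_filter (s := Irr X)
    (p := fun theta => DZ p theta ∧
        Pool.Agent.Y63.NV.centralValue red theta (fun x : X => z x) = c)
    (q := fun theta => ¬ Nat.card (St X theta) = Nat.card X)]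
  exact Finset.card_filter_add_card_filter_not _
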